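import Mathlib
import Pool.Agent.Lib.helper17.KDet

set_option autoImplicit false

namespace Pool.Agent.Results.MP_16af68_gt.NotHomeo

/-- `(R, μ)` is a `K`-reflection of `X` -/
def IsRefl (K : ∀ (X : Type) [TopologicalSpace X], Prop) (X R : Type) [TopologicalSpace X]
    [TopologicalSpace R] (μ : X → R) : Prop :=
  K R ∧ Continuous μ ∧ ∀ (Y : Type) [TopologicalSpace Y], K Y → ∀ f : X → Y, Continuous f →
    ∃! g : R → Y, Continuous g ∧ g ∘ μ = f

theorem result : ∃ K : ∀ (X : Type) [TopologicalSpace X], Prop,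
    (∀ (X : Type) [TopologicalSpace X], K X → T0Space X) ∧
    (∀ (X : Type) [TopologicalSpace X], T0Space X → QuasiSober X → K X) ∧
    (∀ (X Y : Type) [TopologicalSpace X] [TopologicalSpace Y], (X ≃ₜ Y) → K X → K Y) ∧
    (∀ (Y : Type) [TopologicalSpace Y] [T0Space Y] [QuasiSober Y] (S : Set (Set Y)),
      (∀ A ∈ S, K ↥A) → K ↥(⋂₀ S)) ∧
    (∀ (X Y : Type) [TopologicalSpace X] [TopologicalSpace Y] [T0Space X] [QuasiSober X]
      [T0Space Y] [QuasiSober Y] (f : X → Y), Continuous f →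
      ∀ B : Set Y, K ↥B → K ↥(f ⁻¹' B)) ∧
    ∃ (I : Type) (X R : I → Type) (_ : ∀ i, TopologicalSpace (X i))
      (_ : ∀ i, TopologicalSpace (R i)) (η : ∀ i, X i → R i),
      (∀ i, T0Space (X i)) ∧ (∀ i, IsRefl K (X i) (R i) (η i)) ∧
      ∀ (P : Type) [TopologicalSpace P] (μ : (∀ i, X i) → P), IsRefl K (∀ i, X i) P μ →
        IsEmpty (P ≃ₜ ∀ i, R i) := by
  refine ⟨H17K.K0, fun _ _ h => h.1, H17K.K0_sober, H17K.K0_homeo, fun Y _ _ _ => H17K.K0_inter Y,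
    fun X Y _ _ _ _ _ _ => H17K.K0_preimage X Y,
    ℕ, H17K.W, H17K.R, inferInstance, inferInstance, H17K.eta, fun _ => inferInstance,
    fun i => ⟨H17K.K0_sober _ inferInstance inferInstance, H17K.eta_cont i, H17K.eta_refl i⟩,
    fun P _ μ h => ⟨fun e => ?_⟩⟩
  obtain ⟨g, ⟨hg, he⟩, _⟩ := h.2.2 H17K.Y0 H17K.K0_Y0 H17K.jj H17K.jj_cont
  refine H17K.jj_unbdd (g (e.symm fun _ => ⊤)) fun x => ?_
  have h1 : (fun _ => ⊤ : ∀ i, H17K.R i) ⤳ e (μ x) :=
    specializes_pi.mpr fun i => H17K.spec_iff.mpr le_top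
  have h2 := h1.map (hg.comp e.symm.continuous)
  rw [← he]
  simpa using h2

end Pool.Agent.Results.MP_16af68_gt.NotHomeo
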